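import Pool.Agent.CGN.Lev

/-!
# Number fields: places, completions, the absolute Galois group
-/

noncomputable section

namespace Pool.Agent.CGNF

open NumberField IsDedekindDomain

/-- Prime numbers. -/
abbrev Pr := Nat.Primes

/-- The finite places of the number field `F`. -/
def PlF (F : Type) [Field F] [NumberField F] : Type := HeightOneSpectrum (𝓞 F)

variable {F : Type} [Field F] [NumberField F]

/-- The prime ideal of a finite place. -/
def PlF.ideal (v : PlF F) : Ideal (𝓞 F) := HeightOneSpectrum.asIdeal v

/-- The finite place `v` lies above the rational prime `ℓ`. -/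
def PlF.Above (ℓ : Pr) (v : PlF F) : Prop := ((ℓ : ℕ) : 𝓞 F) ∈ v.ideal

/-- The norm of the finite place `v`, the number of elements of its residue field. -/
def PlF.norm (v : PlF F) : ℕ := Ideal.absNorm v.ideal

/-- The completion of `F` at the finite place `v`. -/
def Comp (v : PlF F) : Type := HeightOneSpectrum.adicCompletion F v

instance (v : PlF F) : Field (Comp v) :=
  (inferInstance : Field (HeightOneSpectrum.adicCompletion F v))

/-- The usual topology of the completion. -/
instance (v : PlF F) : TopologicalSpace (Comp v) :=
  (inferInstance : TopologicalSpace (HeightOneSpectrum.adicCompletion F v))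

/-- The ring of integers of the completion of `F` at `v`. -/
def CompInt (v : PlF F) : Type := HeightOneSpectrum.adicCompletionIntegers F v

instance (v : PlF F) : CommRing (CompInt v) :=
  (inferInstance : CommRing (HeightOneSpectrum.adicCompletionIntegers F v))

/-- The inclusion of the ring of integers in the completion. -/
def CompInt.incl (v : PlF F) : CompInt v →+* Comp v :=
  algebraMap (HeightOneSpectrum.adicCompletionIntegers F v) (HeightOneSpectrum.adicCompletion F v)

/-- The embedding of `F` in its completion at `v`. -/
def Comp.emb (v : PlF F) : F →+* Comp v := algebraMap F (HeightOneSpectrum.adicCompletion F v)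

/-- The embedding of the ring of integers of `F` in that of its completion at `v`. -/
def CompInt.emb (v : PlF F) : 𝓞 F →+* CompInt v :=
  algebraMap (𝓞 F) (HeightOneSpectrum.adicCompletionIntegers F v)

/-- The inclusion of the ring of integers of `F` in `F`. -/
def inclF (F : Type) [Field F] : 𝓞 F →+* F := algebraMap (𝓞 F) F

/-- The element `π` of `F` is a uniformiser at `v`. -/
def IsUnif (v : PlF F) (π : F) : Prop :=
  HeightOneSpectrum.valuation F v π = WithZero.exp (-1 : ℤ)

theorem exists_unif (v : PlF F) : ∃ π : F, IsUnif v π :=
  HeightOneSpectrum.valuation_exists_uniformizer F v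

/-- A uniformiser of the completion at `v`, an element of `F`. -/
def unifF (v : PlF F) : F := (exists_unif v).choose

theorem unif_ne (v : PlF F) : Comp.emb v (unifF v) ≠ 0 :=
  (map_ne_zero (algebraMap F (CG2.Fv v))).2 (CG2.pi_ne v)

/-- This uniformiser as a unit of the completion. -/
def unif (v : PlF F) : (Comp v)ˣ := Units.mk0 (Comp.emb v (unifF v)) (unif_ne v)

/-- An algebraic closure of `F`. -/
def Fbar (F : Type) [Field F] : Type := AlgebraicClosure F

instance (F : Type) [Field F] : Field (Fbar F) := (inferInstance : Field (AlgebraicClosure F))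

instance (F : Type) [Field F] : Algebra F (Fbar F) :=
  (inferInstance : Algebra F (AlgebraicClosure F))

/-- The absolute Galois group of `F`. -/
def GalF (F : Type) [Field F] : Type := Fbar F ≃ₐ[F] Fbar F

instance (F : Type) [Field F] : Group (GalF F) := (inferInstance : Group (Fbar F ≃ₐ[F] Fbar F))

/-- The Krull topology. -/
instance (F : Type) [Field F] : TopologicalSpace (GalF F) :=
  (inferInstance : TopologicalSpace (Fbar F ≃ₐ[F] Fbar F))

/-- The image of `x` under `σ`. -/
def GalF.app (σ : GalF F) (x : Fbar F) : Fbar F := (show Fbar F ≃ₐ[F] Fbar F from σ) x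

/-- The ring of algebraic integers in `Fbar`. -/
def Zbar (F : Type) [Field F] : Type := integralClosure ℤ (Fbar F)

instance (F : Type) [Field F] : CommRing (Zbar F) :=
  (inferInstance : CommRing (integralClosure ℤ (Fbar F)))

/-- The inclusion of `Zbar` in `Fbar`. -/
def Zbar.val (x : Zbar F) : Fbar F := x.1

/-- The prime ideal `Q` of the ring of algebraic integers lies over the place `v`. -/
def Over (v : PlF F) (Q : Ideal (Zbar F)) : Prop :=
  Q.IsPrime ∧ ∀ a ∈ v.ideal, ∀ x : Zbar F, x.val = algebraMap F (Fbar F) (a : F) → x ∈ Q

/-- `σ` acts trivially on the residue ring `Zbar / Q`. -/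
def IsInertia (Q : Ideal (Zbar F)) (σ : GalF F) : Prop :=
  ∀ x y : Zbar F, y.val = σ.app x.val → y - x ∈ Q

/-- `σ` acts on the residue ring `Zbar / Q` by `x ↦ x ^ N v`: it is a Frobenius element at `Q`,
where `Q` lies over `v`. -/
def IsFrob (v : PlF F) (Q : Ideal (Zbar F)) (σ : GalF F) : Prop :=
  ∀ x y : Zbar F, y.val = σ.app x.val → y - x ^ v.norm ∈ Q

/-- The `n`-dimensional representations over `k` of the absolute Galois group of `F`. -/
def GRep (F : Type) [Field F] (n : ℕ) (k : Type) [Field k] : Type := GalF F →* GL (Fin n) k

variable {n : ℕ} {k : Type} [Field k]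

/-- The matrix of `ρ(σ)`. -/
def GRep.mat (ρ : GRep F n k) (σ : GalF F) : Matrix (Fin n) (Fin n) k :=
  Units.val ((show GalF F →* GL (Fin n) k from ρ) σ)

/-- `σ` is in the kernel of `ρ`. -/
def GRep.Ker (ρ : GRep F n k) (σ : GalF F) : Prop :=
  (show GalF F →* GL (Fin n) k from ρ) σ = 1

/-- The characters of the absolute Galois group of `F` with values in `k`. -/
def GChar (F : Type) [Field F] (k : Type) [Field k] : Type := GalF F →* kˣ

/-- The value of the character `ω` at `σ`. -/
def GChar.val (ω : GChar F k) (σ : GalF F) : k := Units.val ((show GalF F →* kˣ from ω) σ)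

/-- The space of vectors. -/
def Vec (n : ℕ) (k : Type) : Type := Fin n → k

instance : AddCommGroup (Vec n k) := (inferInstance : AddCommGroup (Fin n → k))

instance : Module k (Vec n k) := (inferInstance : Module k (Fin n → k))

/-- The action of `g` through `ρ` on the vectors over an extension `k'` of `k`. -/
def GRep.act (ρ : GRep F n k) (k' : Type) [Field k'] [Algebra k k'] (g : GalF F) (v : Vec n k') :
    Vec n k' := ((ρ.mat g).map (algebraMap k k')).mulVec v

/-- `ρ` does not factor through a proper parabolic subgroup of `GL_n`, after any finite extension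
of the field `k`: over no finite extension is there a stable subspace other than `0` and the
whole space. -/
def NonEisenstein (ρ : GRep F n k) : Prop :=
  ∀ (k' : Type) [Field k'] [Algebra k k'], Module.Finite k k' →
    ∀ V : Submodule k' (Vec n k'), (∀ g : GalF F, ∀ v ∈ V, ρ.act k' g v ∈ V) → V = ⊥ ∨ V = ⊤

/-- The polynomial `X^n - w T₁ X^(n-1) + w² N T₂ X^(n-2) - … + (-1)^n w^n N^(n(n-1)/2) T_n`; here
`T_(j+1) = lam j`. -/
def pol (lam : Fin n → k) (w N : k) : Polynomial k :=
  Polynomial.X ^ n + ∑ j : Fin n,
    Polynomial.C ((-w) ^ ((j : ℕ) + 1) * N ^ ((j : ℕ) * ((j : ℕ) + 1) / 2) * lam j) *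
      Polynomial.X ^ (n - ((j : ℕ) + 1))

/-- The algebra laws for a product `mul` with the unit element `one` on an additive group. -/
structure Laws (R : Type) [AddCommGroup R] (mul : R → R → R) (one : R) : Prop where
  assoc : ∀ x y z, mul (mul x y) z = mul x (mul y z)
  one_mul : ∀ x, mul one x = x
  mul_one : ∀ x, mul x one = x
  left : ∀ x y z, mul x (y + z) = mul x y + mul x z
  right : ∀ x y z, mul (x + y) z = mul x z + mul y z

/-- The ring with the product `mul` and the unit element `one`. -/
@[reducible] def mkRing {R : Type} [AddCommGroup R] {mul : R → R → R} {one : R}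
    (h : Laws R mul one) : Ring R :=
  { (inferInstance : AddCommGroup R) with
    mul := mul
    one := one
    mul_assoc := h.assoc
    one_mul := h.one_mul
    mul_one := h.mul_one
    left_distrib := h.left
    right_distrib := h.right
    zero_mul := fun x => by
      have h1 := h.right 0 0 x
      rw [add_zero] at h1
      exact left_eq_add.1 h1
    mul_zero := fun x => by
      have h1 := h.left x 0 0
      rw [add_zero] at h1
      exact left_eq_add.1 h1 }

end Pool.Agent.CGNF
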