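import Pool.Agent.CGNF.Base

/-!
# The cohomology of the locally symmetric spaces of the multiplicative group of a central division
algebra over a number field

The definitions repeat those of `Pool.Agent.CGN`, with named and bundled types, so that they can be
displayed in short form.
-/

noncomputable section

namespace Pool.Agent.CGNF

open Matrix NumberField IsDedekindDomain

/-- The index set of a basis of an algebra of dimension `n²`. -/
def Ix (n : ℕ) : Type := Fin n × Fin n

instance (n : ℕ) : Fintype (Ix n) := (inferInstance : Fintype (Fin n × Fin n))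

instance (n : ℕ) : DecidableEq (Ix n) := (inferInstance : DecidableEq (Fin n × Fin n))

/-- An algebra `D` of dimension `n²` over a number field `F`, given by its structure constants with
respect to a basis: `e_i e_j = ∑ c_ijk e_k`, `1 = ∑ u_i e_i`; they are in the ring of integers of
`F`. Every algebra of dimension `n²` over `F` is of this form, with the basis `1, N e₂, N e₃, …`
for a suitable nonzero integer `N`, where `1, e₂, e₃, …` is an arbitrary basis. -/
structure AData where
  /-- the number field -/
  F : Type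
  [field : Field F]
  [numberField : NumberField F]
  /-- the degree -/
  n : ℕ
  /-- the products of the elements of the basis -/
  c : Ix n → Ix n → Ix n → 𝓞 F
  /-- the coordinates of the unit element -/
  u : Ix n → 𝓞 F
  assoc : ∀ i j k l, ∑ m, c i j m * c m k l = ∑ m, c j k m * c i m l
  one_mul : ∀ j k, ∑ i, u i * c i j k = if j = k then 1 else 0
  mul_one : ∀ i k, ∑ j, u j * c i j k = if i = k then 1 else 0

attribute [instance] AData.field AData.numberField

/-- The same data in the notation of `Pool.Agent.CGN`. -/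
def AData.old (A : AData) : CGN.AD A.F := ⟨A.n, ⟨A.c, A.u, A.assoc, A.one_mul, A.mul_one⟩⟩

/-- The ring of integers of `F`. -/
def AData.OF (A : AData) : Type := 𝓞 A.F

variable {A : AData}

instance : CommRing A.OF := (inferInstance : CommRing (𝓞 A.F))

/-- A commutative ring `R` with a homomorphism from the ring of integers of `F` to `R`. -/
structure Base (A : AData) where
  /-- the ring -/
  R : Type
  [ring : CommRing R]
  /-- the homomorphism -/
  f : A.OF →+* R

attribute [instance] Base.ring

/-- The algebra over `R` with the basis `e_i` : the module `R^(n²)` of the coordinates. -/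
def Alg (B : Base A) : Type := Ix A.n → B.R

variable {B : Base A}

instance : AddCommGroup (Alg B) := (inferInstance : AddCommGroup (Ix A.n → B.R))

instance : Module B.R (Alg B) := (inferInstance : Module B.R (Ix A.n → B.R))

/-- The product. -/
def Alg.mul (x y : Alg B) : Alg B := fun k => ∑ i, ∑ j, x i * y j * B.f (A.c i j k)

/-- The unit element. -/
def Alg.one : Alg B := fun i => B.f (A.u i)

/-- The structure constants in the notation of `Pool.Agent.CGN`. -/
def Base.old (B : Base A) : CGN.SC (Fin A.n × Fin A.n) B.R := A.old.s.map B.f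

theorem Alg.laws : Laws (Alg B) Alg.mul Alg.one :=
  ⟨mul_assoc (G := B.old.Alg), one_mul (M := B.old.Alg), mul_one (M := B.old.Alg),
    mul_add (R := B.old.Alg), add_mul (R := B.old.Alg)⟩

instance : Ring (Alg B) := mkRing Alg.laws

theorem Alg.smul_mul (r : B.R) (x y : Alg B) : r • x * y = r • (x * y) :=
  CGN.SC.Alg.smul_mul' (s := B.old) r x y

theorem Alg.mul_smul (r : B.R) (x y : Alg B) : x * r • y = r • (x * y) :=
  CGN.SC.Alg.mul_smul' (s := B.old) r x y

instance : Algebra B.R (Alg B) := Algebra.ofModule Alg.smul_mul Alg.mul_smul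

/-- The finite places of the number field `F`. -/
def Pl (A : AData) : Type := PlF A.F

/-- The finite place `v` lies above the rational prime `ℓ`. -/
def Above (ℓ : Pr) (v : Pl A) : Prop := PlF.Above ℓ v

/-- The completion of `F` at the finite place `v`. -/
def Fv (v : Pl A) : Type := Comp v

instance (v : Pl A) : Field (Fv v) := (inferInstance : Field (Comp v))

instance (v : Pl A) : TopologicalSpace (Fv v) := (inferInstance : TopologicalSpace (Comp v))

/-- The ring of integers of the completion of `F` at `v`. -/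
def Ov (v : Pl A) : Type := CompInt v

instance (v : Pl A) : CommRing (Ov v) := (inferInstance : CommRing (CompInt v))

/-- The inclusion of the ring of integers in the completion. -/
def incl (v : Pl A) : Ov v →+* Fv v := CompInt.incl v

/-- The embedding of `F` in its completion at `v`. -/
def emb (v : Pl A) : A.F →+* Fv v := Comp.emb v

/-- The inclusion of the ring of integers of `F` in `F`. -/
def AData.inclF (A : AData) : A.OF →+* A.F := CGNF.inclF A.F

/-- The field `F` with the inclusion of the ring of integers. -/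
def baseF (A : AData) : Base A := ⟨A.F, A.inclF⟩

/-- The algebra `D` over `F`. -/
def AData.D (A : AData) : Type := Alg (baseF A)

instance : Ring A.D := (inferInstance : Ring (Alg (baseF A)))

instance : Module A.F A.D := (inferInstance : Module (baseF A).R (Alg (baseF A)))

/-- `D` is a division algebra. -/
def AData.IsDivision (A : AData) : Prop := ∀ x : A.D, x ≠ 0 → ∃ y : A.D, x * y = 1

/-- The centre of `D` is `F`. -/
def AData.IsCentral (A : AData) : Prop :=
  ∀ x : A.D, (∀ y : A.D, x * y = y * x) → ∃ r : A.F, x = r • (1 : A.D)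

/-- The field `F_v` with the embedding of the ring of integers of `F`. -/
def baseV (v : Pl A) : Base A := ⟨Fv v, (emb v).comp A.inclF⟩

/-- The algebra `D_v = D ⊗ F_v`. -/
def DV (v : Pl A) : Type := Alg (baseV v)

instance (v : Pl A) : Ring (DV v) := (inferInstance : Ring (Alg (baseV v)))

instance (v : Pl A) : Algebra (Fv v) (DV v) :=
  (inferInstance : Algebra (baseV v).R (Alg (baseV v)))

/-- The topology of `F_v^(n²)`. -/
instance (v : Pl A) : TopologicalSpace (DV v) :=
  (inferInstance : TopologicalSpace (Ix A.n → Fv v))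

/-- The ring `O_v` with the embedding of the ring of integers of `F`. -/
def baseO (v : Pl A) : Base A := ⟨Ov v, CompInt.emb v⟩

/-- The order of `D_v` spanned over `O_v` by the given basis. -/
def DO (v : Pl A) : Type := Alg (baseO v)

instance (v : Pl A) : Ring (DO v) := (inferInstance : Ring (Alg (baseO v)))

/-- The embedding of `D` in `D_v`. -/
def toVFun (v : Pl A) (x : A.D) : DV v := fun i => emb v (x i)

theorem toVFun_one (v : Pl A) : toVFun v (1 : A.D) = 1 := (CGN.dloc A.old v).map_one'

theorem toVFun_mul (v : Pl A) (x y : A.D) : toVFun v (x * y) = toVFun v x * toVFun v y :=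
  (CGN.dloc A.old v).map_mul' x y

/-- The embedding of `D` in `D_v` as a homomorphism of monoids. -/
def toV (v : Pl A) : A.D →* DV v := ⟨⟨toVFun v, toVFun_one v⟩, toVFun_mul v⟩

/-- The inclusion of the order `DO` in `D_v`. -/
def toDFun (v : Pl A) (x : DO v) : DV v := fun i => incl v (x i)

theorem toDFun_one (v : Pl A) : toDFun v (1 : DO v) = 1 := (CGN.dint A.old v).map_one'

theorem toDFun_mul (v : Pl A) (x y : DO v) : toDFun v (x * y) = toDFun v x * toDFun v y :=
  (CGN.dint A.old v).map_mul' x y

/-- The inclusion of the order `DO` in `D_v` as a homomorphism of monoids. -/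
def toD (v : Pl A) : DO v →* DV v := ⟨⟨toDFun v, toDFun_one v⟩, toDFun_mul v⟩

/-- The group `Dˣ`. -/
def DG (A : AData) : Type := (A.D)ˣ

instance : Group (DG A) := (inferInstance : Group (A.D)ˣ)

/-- The underlying element of `D`. -/
def DG.val (γ : DG A) : A.D := Units.val γ

/-- The group `D_vˣ`. -/
def LD (v : Pl A) : Type := (DV v)ˣ

instance (v : Pl A) : Group (LD v) := (inferInstance : Group (DV v)ˣ)

/-- The usual topology of `D_vˣ`: `D_v` has the product topology of `F_v^(n²)`, and the map
`x ↦ (x, x⁻¹)` from `D_vˣ` to `D_v × D_v` is an embedding. -/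
instance (v : Pl A) : TopologicalSpace (LD v) := (inferInstance : TopologicalSpace (DV v)ˣ)

/-- The embedding of `Dˣ` in `D_vˣ`. -/
def loc (v : Pl A) (γ : DG A) : LD v := Units.map (toV v) γ

/-- The element `g` of `D_vˣ` is a unit of the order `DO`. -/
def IsUnitD {v : Pl A} (g : LD v) : Prop := ∃ x : (DO v)ˣ, Units.map (toD v) x = g

/-- The families of elements of the groups `D_vˣ`. -/
def Fam (A : AData) : Type := ∀ v : Pl A, LD v

instance : Group (Fam A) := (inferInstance : Group (∀ v : Pl A, LD v))

/-- Almost all members of the family `g` are units of the order `DO`. -/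
def AlmostInt (g : Fam A) : Prop := {v : Pl A | ¬ IsUnitD (g v)}.Finite

theorem almostInt_mul {a b : Fam A} (ha : AlmostInt a) (hb : AlmostInt b) : AlmostInt (a * b) :=
  (CGN.sysA A.old).A.mul_mem' ha hb

theorem almostInt_one : AlmostInt (1 : Fam A) := (CGN.sysA A.old).A.one_mem'

theorem almostInt_inv {a : Fam A} (ha : AlmostInt a) : AlmostInt a⁻¹ :=
  (CGN.sysA A.old).A.inv_mem' ha

/-- The subgroup of these families. -/
def GA (A : AData) : Subgroup (Fam A) where
  carrier := {g | AlmostInt g}
  mul_mem' := almostInt_mul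
  one_mem' := almostInt_one
  inv_mem' := almostInt_inv

/-- The group `(D ⊗ 𝔸_f)ˣ`, `𝔸_f` the ring of finite adeles of `F`: the restricted product of the
groups `D_vˣ` with respect to the unit groups of the orders `DO`. -/
def AG (A : AData) : Type := GA A

instance : Group (AG A) := (inferInstance : Group (GA A))

/-- The element of `(D ⊗ 𝔸_f)ˣ` given by a family. -/
def AG.mk (g : Fam A) (h : AlmostInt g) : AG A := ⟨g, h⟩

/-- The component at `v` of an element of `(D ⊗ 𝔸_f)ˣ`. -/
def AG.comp (g : AG A) (v : Pl A) : LD v := g.1 v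

theorem almostInt_loc (γ : DG A) : AlmostInt (fun v => loc v γ) :=
  (CGQ.diag (𝒟 := CGN.sysA A.old) γ).2

/-- The image of `γ` under the diagonal embedding `Dˣ → (D ⊗ 𝔸_f)ˣ`. -/
def diag (γ : DG A) : AG A := AG.mk (fun v => loc v γ) (almostInt_loc γ)

open Classical in
/-- The family with member `h` at `v` and `1` elsewhere. -/
def singleFam (v : Pl A) (h : LD v) : Fam A := Pi.mulSingle (M := LD) v h

theorem almostInt_single (v : Pl A) (h : LD v) : AlmostInt (singleFam v h) :=
  (CGQ.single (𝒟 := CGN.sysA A.old) v h).2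

/-- The element of `(D ⊗ 𝔸_f)ˣ` with component `h` at `v` and `1` elsewhere. -/
def single (v : Pl A) (h : LD v) : AG A := AG.mk (singleFam v h) (almostInt_single v h)

/-- The field `ℝ` with the embedding of the ring of integers of `F` given by an embedding of
`F`. -/
def baseR (f : A.F →+* ℝ) : Base A := ⟨ℝ, f.comp A.inclF⟩

/-- The algebra `D ⊗ ℝ` for an embedding of `F` in `ℝ`. -/
def DR (f : A.F →+* ℝ) : Type := Alg (baseR f)

instance (f : A.F →+* ℝ) : Ring (DR f) := (inferInstance : Ring (Alg (baseR f)))

instance (f : A.F →+* ℝ) : Algebra ℝ (DR f) :=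
  (inferInstance : Algebra (baseR f).R (Alg (baseR f)))

/-- The embedding of `D` in `D ⊗ ℝ`. -/
def toR (f : A.F →+* ℝ) (x : A.D) : DR f := fun i => f (x i)

/-- The isomorphisms of algebras from `D ⊗ ℝ` to `M_n(ℝ)`. -/
def RIso (f : A.F →+* ℝ) : Type := DR f ≃ₐ[ℝ] Matrix (Fin A.n) (Fin A.n) ℝ

/-- The determinant of the image of `x` under such an isomorphism: the reduced norm of `x`. -/
def RIso.det {f : A.F →+* ℝ} (e : RIso f) (x : DR f) : ℝ :=
  Matrix.det ((show DR f ≃ₐ[ℝ] Matrix (Fin A.n) (Fin A.n) ℝ from e) x)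

/-- The real places of `F` at which `D` is split: `D ⊗ ℝ` is isomorphic to `M_n(ℝ)`. -/
def SPl (A : AData) : Type := {w : InfinitePlace A.F // ∃ h : w.IsReal,
  Nonempty (RIso (InfinitePlace.embedding_of_isReal h))}

/-- The embedding of `F` in `ℝ` given by such a place. -/
def SPl.emb (w : SPl A) : A.F →+* ℝ := InfinitePlace.embedding_of_isReal w.2.choose

/-- An isomorphism from `D ⊗ ℝ` to `M_n(ℝ)`. -/
def SPl.iso (w : SPl A) : RIso w.emb := w.2.choose_spec.some

/-- The reduced norm of `x` at such a place. -/
def SPl.nrd (w : SPl A) (x : A.D) : ℝ := w.iso.det (toR w.emb x)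

/-- The group `{1,-1}^(split real places)`, the set of the connected components of
`(D ⊗ ℝ)ˣ / A_∞° K_∞°`. -/
def Sg (A : AData) : Type := SPl A → ℤˣ

instance : Group (Sg A) := (inferInstance : Group (SPl A → ℤˣ))

/-- The action of `Dˣ` on this set: the signs of the reduced norm at the split real places. -/
def sgn (γ : DG A) : Sg A := fun w => if 0 < w.nrd γ.val then 1 else -1

/-- The places above the rational prime `ℓ`. -/
def PlAbove (A : AData) (ℓ : Pr) : Type := {v : Pl A // Above ℓ v}

/-- The group `(D ⊗ ℚ_ℓ)ˣ`, the product of the groups `D_vˣ` over the places `v` above the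
rational prime `ℓ`. -/
def DL (A : AData) (ℓ : Pr) : Type := ∀ v : PlAbove A ℓ, LD v.1

instance (ℓ : Pr) : Group (DL A ℓ) := (inferInstance : Group (∀ v : PlAbove A ℓ, LD v.1))

/-- The product topology. -/
instance (ℓ : Pr) : TopologicalSpace (DL A ℓ) :=
  (inferInstance : TopologicalSpace (∀ v : PlAbove A ℓ, LD v.1))

/-- The subgroups of this group. -/
def Sub (A : AData) (ℓ : Pr) : Type := Subgroup (DL A ℓ)

/-- The element `g` is in the subgroup `K`. -/
def Sub.Mem {ℓ : Pr} (K : Sub A ℓ) (g : DL A ℓ) : Prop := g ∈ (show Subgroup (DL A ℓ) from K)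

/-- The subgroup `K` is compact and open. -/
def Sub.IsCO {ℓ : Pr} (K : Sub A ℓ) : Prop :=
  IsOpen {g : DL A ℓ | K.Mem g} ∧ IsCompact {g : DL A ℓ | K.Mem g}

/-- The finite place `v` lies above one of the rational primes in `S`. -/
def Ab (S : Finset Pr) (v : Pl A) : Prop := ∃ ℓ ∈ S, Above ℓ v

/-- The algebra `M_n(F_v)`. -/
def Mn (v : Pl A) : Type := Matrix (Fin A.n) (Fin A.n) (Fv v)

instance (v : Pl A) : Ring (Mn v) := (inferInstance : Ring (Matrix (Fin A.n) (Fin A.n) (Fv v)))

instance (v : Pl A) : Algebra (Fv v) (Mn v) :=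
  (inferInstance : Algebra (Fv v) (Matrix (Fin A.n) (Fin A.n) (Fv v)))

/-- The group `GL_n(F_v)`. -/
def LG (v : Pl A) : Type := (Mn v)ˣ

instance (v : Pl A) : Group (LG v) := (inferInstance : Group (Mn v)ˣ)

/-- The subgroup `GL_n(O_v)` of `GL_n(F_v)`. -/
def GZ (v : Pl A) : Subgroup (LG v) := (GeneralLinearGroup.map (n := Fin A.n) (incl v)).range

/-- The element `g` of `GL_n(F_v)` is in `GL_n(O_v)`. -/
def IsUnitG {v : Pl A} (g : LG v) : Prop := g ∈ GZ v

/-- The isomorphisms of algebras from `D_v` to `M_n(F_v)`. -/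
def Iso (v : Pl A) : Type := DV v ≃ₐ[Fv v] Mn v

/-- The isomorphism `D_vˣ → GL_n(F_v)` given by an isomorphism of algebras. -/
def Iso.eqv {v : Pl A} (f : Iso v) : LD v ≃* LG v := Units.mapEquiv (AlgEquiv.toMulEquiv f)

/-- The value of this isomorphism. -/
def Iso.app {v : Pl A} (f : Iso v) (g : LD v) : LG v := f.eqv g

/-- A level: compact open subgroups `K_ℓ` of `(D ⊗ ℚ_ℓ)ˣ` for all rational primes `ℓ`, for almost
all `ℓ` the product of the unit groups of the orders `DO` (so the product `K_f` of the `K_ℓ` is
open), which are hyperspecial for `ℓ` outside a finite set `S` of primes which contains the given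
prime `p`: there are isomorphisms `φ_v` of the algebras `D_v` with `M_n(F_v)`, for the places `v`
not above `S`, such that `K_ℓ` is the preimage of the product of the groups `GL_n(O_v)`, for `ℓ`
outside `S`. -/
structure Level (A : AData) where
  /-- the prime `p` -/
  p : Pr
  /-- the set `S` -/
  S : Finset Pr
  mem : p ∈ S
  /-- the local groups -/
  K : ∀ ℓ : Pr, Sub A ℓ
  isCO : ∀ ℓ, (K ℓ).IsCO
  almost : {ℓ : Pr | ¬ ∀ g, (K ℓ).Mem g ↔ ∀ v, IsUnitD (g v)}.Finite
  /-- the isomorphisms -/
  φ : ∀ v : Pl A, ¬ Ab S v → Iso v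
  off : ∀ ℓ, ℓ ∉ S → ∀ g,
    (K ℓ).Mem g ↔ ∀ (v : PlAbove A ℓ) (hv : ¬ Ab S v.1), IsUnitG ((φ v.1 hv).app (g v))

/-- The same level in the notation of `Pool.Agent.CGN`. -/
def Level.old (L : Level A) : CGN.LevelA A.old L.p L.S :=
  ⟨L.K, fun ℓ => (L.isCO ℓ).1, fun ℓ => (L.isCO ℓ).2, L.almost, fun v => L.φ v.1 v.2, L.off, L.mem⟩

/-- The component at the rational prime `ℓ` of an element of `(D ⊗ 𝔸_f)ˣ`. -/
def AG.at (g : AG A) (ℓ : Pr) : DL A ℓ := fun v => g.comp v.1

/-- The element `g` of `(D ⊗ 𝔸_f)ˣ` is in `K_f` : all its components are in the groups `K_ℓ`. -/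
def Level.InK (L : Level A) (g : AG A) : Prop := ∀ ℓ, (L.K ℓ).Mem (g.at ℓ)

/-- The groups `Dˣ ∩ g K_f g⁻¹` are torsion free, for all `g` in `(D ⊗ 𝔸_f)ˣ`.
This holds when `K_f` is neat. -/
def Level.TorsionFree (L : Level A) : Prop :=
  ∀ (g : AG A) (γ : DG A) (m : ℕ), 0 < m → L.InK (g⁻¹ * diag γ * g) → γ ^ m = 1 → γ = 1

/-- The group `K_f`. -/
def Level.Kf (L : Level A) : Type := {g : AG A // L.InK g}

/-- The underlying element of `(D ⊗ 𝔸_f)ˣ`. -/
def Level.Kf.val {L : Level A} (k : L.Kf) : AG A := k.1

/-- The group `K_p`. -/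
def Level.Kp (L : Level A) : Type := (show Subgroup (DL A L.p) from L.K L.p)

instance (L : Level A) : Group L.Kp :=
  (inferInstance : Group (show Subgroup (DL A L.p) from L.K L.p))

/-- The inclusion of `K_p` in `(D ⊗ ℚ_p)ˣ`. -/
def Level.Kp.val {L : Level A} (k : L.Kp) : DL A L.p := k.1

/-- The component at `p` of an element of `K_f`. -/
def Level.Kf.atp {L : Level A} (k : L.Kf) : L.Kp := ⟨k.val.at L.p, k.2 L.p⟩

/-- The coefficients: a discrete valuation ring `O` whose residue field has the characteristic
`p` (in particular, the ring of integers of a finite extension of `ℚ_p`), and a finitely generated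
`O`-module `W` with an action `σ` of `K_p`. -/
structure Coef (L : Level A) where
  /-- the ring -/
  O : Type
  [commRing : CommRing O]
  [isDomain : IsDomain O]
  [dvr : IsDiscreteValuationRing O]
  char : ((L.p : ℕ) : O) ∈ IsLocalRing.maximalIdeal O
  /-- the module -/
  W : Type
  [addCommGroup : AddCommGroup W]
  [module : Module O W]
  [finite : Module.Finite O W]
  /-- the action of `K_p` -/
  σ : Representation O L.Kp W

attribute [instance] Coef.commRing Coef.isDomain Coef.dvr Coef.addCommGroup Coef.module
  Coef.finite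

variable {L : Level A}

/-- The action of `K_p` on `W`. -/
def Coef.act (V : Coef L) (k : L.Kp) (w : V.W) : V.W := V.σ k w

/-- The submodule `𝔪^m W` of `W`, `𝔪` the maximal ideal of `O`. -/
def Coef.sub (V : Coef L) (m : ℕ) : Submodule V.O V.W := IsLocalRing.maximalIdeal V.O ^ m • ⊤

/-- The action of `K_p` on `W` is continuous for the `𝔪`-adic topology of `W`. -/
def Coef.IsCont (V : Coef L) : Prop :=
  ∀ m : ℕ, ∃ U : Set (DL A L.p), IsOpen U ∧ 1 ∈ U ∧ ∀ k : L.Kp, k.val ∈ U →
    ∀ w : V.W, V.act k w - w ∈ V.sub m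

/-- The functions on `{1,-1}^(split real places) × (D ⊗ 𝔸_f)ˣ` with values in `W`. -/
def Fn (V : Coef L) : Type := Sg A × AG A → V.W

instance (V : Coef L) : AddCommGroup (Fn V) := (inferInstance : AddCommGroup (Sg A × AG A → V.W))

instance (V : Coef L) : Module V.O (Fn V) := (inferInstance : Module V.O (Sg A × AG A → V.W))

/-- The condition `f (x, g k) = k_p⁻¹ f (x, g)` for all `k` in `K_f`. -/
def IsForm {V : Coef L} (f : Fn V) : Prop :=
  ∀ (y : Sg A × AG A) (k : L.Kf), f (y.1, y.2 * k.val) = V.act (k.atp)⁻¹ (f y)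

theorem isForm_add {V : Coef L} {a b : Fn V} (ha : IsForm a) (hb : IsForm b) : IsForm (a + b) :=
  (CGQ.Forms (O := V.O) (W := V.W) L.old.Kf (L.old.rep V.σ)).add_mem' ha hb

theorem isForm_zero {V : Coef L} : IsForm (0 : Fn V) :=
  (CGQ.Forms (O := V.O) (W := V.W) L.old.Kf (L.old.rep V.σ)).zero_mem'

theorem isForm_smul {V : Coef L} (c : V.O) {a : Fn V} (ha : IsForm a) : IsForm (c • a) :=
  (CGQ.Forms (O := V.O) (W := V.W) L.old.Kf (L.old.rep V.σ)).smul_mem' c ha

/-- The submodule of the functions with this property. -/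
def FormsSub (V : Coef L) : Submodule V.O (Fn V) where
  carrier := {f | IsForm f}
  add_mem' := isForm_add
  zero_mem' := isForm_zero
  smul_mem' := isForm_smul

/-- The module of all functions `f` on `{1,-1}^(split real places) × (D ⊗ 𝔸_f)ˣ` with values in
`W` such that `f (x, g k) = k_p⁻¹ f (x, g)` for all `k` in `K_f`. -/
def Forms (V : Coef L) : Type := FormsSub V

instance (V : Coef L) : AddCommGroup (Forms V) := (inferInstance : AddCommGroup (FormsSub V))

instance (V : Coef L) : Module V.O (Forms V) := (inferInstance : Module V.O (FormsSub V))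

/-- The element of `Forms` given by a function. -/
def Forms.mk {V : Coef L} (f : Fn V) (h : IsForm f) : Forms V := ⟨f, h⟩

/-- The function underlying an element of `Forms`. -/
def Forms.fn {V : Coef L} (f : Forms V) : Fn V := f.1

/-- The translate `(x, g) ↦ f (γ⁻¹ x, γ⁻¹ g)` of a function. -/
def translate {V : Coef L} (γ : DG A) (f : Fn V) : Fn V :=
  fun y => f (sgn γ⁻¹ * y.1, diag γ⁻¹ * y.2)

theorem translate_isForm {V : Coef L} (γ : DG A) (f : Forms V) : IsForm (translate γ f.fn) :=
  (CGQ.formsRep (O := V.O) (W := V.W) L.old.Kf (L.old.rep V.σ) γ f).2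

/-- The translate of an element of `Forms`. -/
def actFun {V : Coef L} (γ : DG A) (f : Forms V) : Forms V :=
  Forms.mk (translate γ f.fn) (translate_isForm γ f)

/-- The map `a` is `O`-linear. -/
def IsLin {V : Coef L} (a : Forms V → Forms V) : Prop := IsLinearMap V.O a

theorem actFun_isLin {V : Coef L} (γ : DG A) : IsLin (actFun (V := V) γ) :=
  ⟨fun _ _ => rfl, fun _ _ => rfl⟩

/-- The endomorphisms of the `O`-module `Forms`. -/
def FEnd (V : Coef L) : Type := Module.End V.O (Forms V)

instance (V : Coef L) : Monoid (FEnd V) := (inferInstance : Monoid (Module.End V.O (Forms V)))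

/-- The endomorphism given by a linear map. -/
def FEnd.mk {V : Coef L} (a : Forms V → Forms V) (h : IsLin a) : FEnd V := IsLinearMap.mk' a h

/-- The translation by `γ` as a linear map. -/
def actLin (V : Coef L) (γ : DG A) : FEnd V := FEnd.mk (actFun γ) (actFun_isLin γ)

theorem actLin_one (V : Coef L) : actLin V 1 = 1 :=
  (CGQ.formsRep (O := V.O) (W := V.W) L.old.Kf (L.old.rep V.σ)).map_one'

theorem actLin_mul (V : Coef L) (a b : DG A) : actLin V (a * b) = actLin V a * actLin V b :=
  (CGQ.formsRep (O := V.O) (W := V.W) L.old.Kf (L.old.rep V.σ)).map_mul' a b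

/-- The action of `Dˣ` on `Forms`: `(γ f)(x, g) = f (γ⁻¹ x, γ⁻¹ g)`. -/
def formsHom (V : Coef L) : DG A →* FEnd V where
  toFun := actLin V
  map_one' := actLin_one V
  map_mul' := actLin_mul V

/-- The action of `Dˣ` on `Forms` as a representation. -/
def formsRep (V : Coef L) : Representation V.O (DG A) (Forms V) := formsHom V

/-- The `Dˣ`-module whose cohomology is the cohomology of `Y(K_f)` with coefficients in the
local system attached to `W`. -/
def coeff (V : Coef L) : Rep V.O (DG A) := Rep.of (formsRep V)

/-- The cohomology group `Hⁱ(Y(K_f), W)` : the group cohomology of the `Dˣ`-module `coeff V`. -/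
def H (V : Coef L) (i : ℕ) : Type := groupCohomology (coeff V) i

instance (V : Coef L) (i : ℕ) : AddCommGroup (H V i) :=
  (inferInstance : AddCommGroup (groupCohomology (coeff V) i))

instance (V : Coef L) (i : ℕ) : Module V.O (H V i) :=
  (inferInstance : Module V.O (groupCohomology (coeff V) i))

end Pool.Agent.CGNF
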