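import Pool.Agent.CGNF.Defs
import Pool.Agent.CGN.Hecke

/-!
# The Hecke algebra, its action on cohomology, and attached Galois representations
-/

noncomputable section

namespace Pool.Agent.CGNF

open CategoryTheory NumberField IsDedekindDomain
open scoped IsMulCommutative

variable {A : AData} {L : Level A}

/-- A uniformiser of `F_v` which is in `F`. -/
def unifV (v : Pl A) : Fv v := Units.val (unif v)

theorem unifV_ne (v : Pl A) : unifV v ≠ 0 := (unif v).ne_zero

/-- The diagonal matrix over `F_v` with `k` entries `π` followed by entries `1`; `π` is a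
uniformiser of `F_v`. -/
def dgm (v : Pl A) (k : ℕ) : Matrix (Fin A.n) (Fin A.n) (Fv v) :=
  Matrix.diagonal fun i => if (i : ℕ) < k then unifV v else 1

theorem dgm_det (v : Pl A) (k : ℕ) : (dgm v k).det ≠ 0 := by
  rw [dgm, Matrix.det_diagonal, Finset.prod_ne_zero_iff]
  intro i _
  split_ifs
  · exact unifV_ne v
  · exact one_ne_zero

/-- The same matrix as an element of `GL_n(F_v)`. -/
def dgk (v : Pl A) (k : ℕ) : LG v := Matrix.GeneralLinearGroup.mkOfDetNeZero (dgm v k) (dgm_det v k)

/-- The elements `diag(π, …, π, 1, …, 1)` with `j + 1` entries `π`, for `some j`, and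
`diag(π, …, π)⁻¹` for `none`. -/
def alpha (v : Pl A) (j : Option (Fin A.n)) : LG v :=
  Option.elim j (dgk v A.n)⁻¹ fun i => dgk v (i + 1)

/-- The cosets `h GL_n(O_v)`. -/
def Cos (v : Pl A) : Type := LG v ⧸ GZ v

/-- The coset `h GL_n(O_v)`. -/
def Cos.mk {v : Pl A} (h : LG v) : Cos v := (h : LG v ⧸ GZ v)

/-- An element of a coset. -/
def Cos.out {v : Pl A} (c : Cos v) : LG v := Quotient.out (show LG v ⧸ GZ v from c)

/-- The coset `c` is contained in the double coset `GL_n(O_v) α GL_n(O_v)`, `α = alpha v j`. -/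
def Cos.In {v : Pl A} (j : Option (Fin A.n)) (c : Cos v) : Prop :=
  ∃ k ∈ GZ v, c = Cos.mk (k * alpha v j)

theorem cosets_finite (v : Pl A) (j : Option (Fin A.n)) : {c : Cos v | c.In j}.Finite :=
  CGN.cosets_finite (F := A.F) (n := A.n) v j

/-- The set of the cosets `h GL_n(O_v)` contained in the double coset
`GL_n(O_v) α GL_n(O_v)`, `α = alpha v j`. -/
def cosets (v : Pl A) (j : Option (Fin A.n)) : Finset (Cos v) := (cosets_finite v j).toFinset

/-- The index set of the generators of the Hecke algebra: a finite place `v` which does not lie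
above `S`, and `some j`, `0 ≤ j < n`, or `none`. -/
def Idx (L : Level A) : Type := {v : Pl A // ¬ Ab L.S v} × Option (Fin A.n)

/-- The place of an index. -/
def Idx.pl (t : Idx L) : Pl A := t.1.1

/-- The number `j` of an index. -/
def Idx.j (t : Idx L) : Option (Fin A.n) := t.2

/-- The index with place `v` and number `j`. -/
def Idx.mk (v : Pl A) (hv : ¬ Ab L.S v) (j : Fin A.n) : Idx L := (⟨v, hv⟩, some j)

/-- The element of `(D ⊗ 𝔸_f)ˣ` with component `h` at `v` and `1` elsewhere, where `v` is the
place of the index `t`, `D_vˣ` is identified with `GL_n(F_v)` by the isomorphism of the level, and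
`h` is an element of the coset `c`. -/
def Idx.elt (t : Idx L) (c : Cos t.pl) : AG A :=
  single t.pl ((L.φ t.pl t.1.2).eqv.symm c.out)

/-- The sum over the cosets in the definition of the Hecke operators. -/
def heckeSum {V : Coef L} (t : Idx L) (f : Fn V) : Fn V :=
  fun y => ∑ c ∈ cosets t.pl t.j, f (y.1, y.2 * t.elt c)

theorem heckeSum_isForm {V : Coef L} (t : Idx L) (f : Forms V) : IsForm (heckeSum t f.fn) :=
  (CGN.heckeLin (O := V.O) (W := V.W) L.old.Kf (L.old.rep V.σ) (L.old.unram V.σ) t f).2

/-- The Hecke operator attached to `t` on `Forms`. -/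
def heckeFun {V : Coef L} (t : Idx L) (f : Forms V) : Forms V :=
  Forms.mk (heckeSum t f.fn) (heckeSum_isForm t f)

theorem heckeFun_isLin {V : Coef L} (t : Idx L) : IsLin (heckeFun (V := V) t) :=
  ⟨(CGN.heckeLin (O := V.O) (W := V.W) L.old.Kf (L.old.rep V.σ) (L.old.unram V.σ) t).map_add',
    (CGN.heckeLin (O := V.O) (W := V.W) L.old.Kf (L.old.rep V.σ) (L.old.unram V.σ) t).map_smul'⟩

/-- The Hecke operator attached to `t` as an endomorphism of the `O`-module `Forms`. -/
def heckeLin (V : Coef L) (t : Idx L) : FEnd V := FEnd.mk (heckeFun t) (heckeFun_isLin t)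

theorem heckeLin_equivariant (V : Coef L) (t : Idx L) (γ : DG A) :
    heckeLin V t * actLin V γ = actLin V γ * heckeLin V t :=
  (CGN.heckeHom (O := V.O) (W := V.W) L.old.Kf (L.old.rep V.σ)
    (L.old.unram V.σ) t).hom.isIntertwining' γ

/-- The Hecke operator attached to `t` as an endomorphism of the representation `coeff V`. -/
def heckeHom (V : Coef L) (t : Idx L) : coeff V ⟶ coeff V :=
  Rep.ofHom
    { toLinearMap := heckeLin V t
      isIntertwining' := heckeLin_equivariant V t }

/-- The algebra of endomorphisms of `Hⁱ(Y(K_f), W)`. -/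
def EndH (V : Coef L) (i : ℕ) : Type := Module.End V.O (H V i)

instance (V : Coef L) (i : ℕ) : Ring (EndH V i) := (inferInstance : Ring (Module.End V.O (H V i)))

instance (V : Coef L) (i : ℕ) : Algebra V.O (EndH V i) :=
  (inferInstance : Algebra V.O (Module.End V.O (H V i)))

/-- The value of an endomorphism of `Hⁱ(Y(K_f), W)`. -/
def EndH.app {V : Coef L} {i : ℕ} (a : EndH V i) (h : H V i) : H V i :=
  (show Module.End V.O (H V i) from a) h

/-- The Hecke operator attached to `t` on the cohomology group `Hⁱ(Y(K_f), W)`. -/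
def heckeCoh (V : Coef L) (i : ℕ) (t : Idx L) : EndH V i :=
  ((groupCohomology.functor V.O (DG A) i).map (heckeHom V t)).hom

/-- The Hecke algebra: the polynomial algebra over `O` on the Hecke operators `T_(v,1)`, …,
`T_(v,n)`, `T_(v,n)⁻¹`, `v` not above `S`. -/
def HeckeAlg (V : Coef L) : Type := MvPolynomial (Idx L) V.O

instance (V : Coef L) : CommRing (HeckeAlg V) :=
  (inferInstance : CommRing (MvPolynomial (Idx L) V.O))

instance (V : Coef L) : Algebra V.O (HeckeAlg V) :=
  (inferInstance : Algebra V.O (MvPolynomial (Idx L) V.O))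

/-- The generator of the Hecke algebra attached to `t`. -/
def HeckeAlg.T (V : Coef L) (t : Idx L) : HeckeAlg V := MvPolynomial.X (R := V.O) t

/-- The homomorphisms of algebras from the Hecke algebra to the algebra of endomorphisms of
`Hⁱ(Y(K_f), W)`. -/
def ActHom (V : Coef L) (i : ℕ) : Type := HeckeAlg V →ₐ[V.O] EndH V i

/-- The value of such a homomorphism. -/
def ActHom.app {V : Coef L} {i : ℕ} (Φ : ActHom V i) (t : HeckeAlg V) : EndH V i :=
  (show HeckeAlg V →ₐ[V.O] EndH V i from Φ) t

/-- `Φ` maps the generators to the Hecke operators. There is a unique such homomorphism: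
`exists_unique_action`. -/
def IsAction {V : Coef L} {i : ℕ} (Φ : ActHom V i) : Prop :=
  ∀ t : Idx L, Φ.app (HeckeAlg.T V t) = heckeCoh V i t

theorem heckeHom_comm (V : Coef L) (s t : Idx L) :
    heckeHom V s ≫ heckeHom V t = heckeHom V t ≫ heckeHom V s :=
  Rep.hom_ext (Representation.IntertwiningMap.ext (LinearMap.ext fun f => (LinearMap.congr_fun
    (CGN.heckeLin_comm (O := V.O) (W := V.W) L.old.Kf (L.old.rep V.σ) (L.old.unram V.σ) s t)
      f).symm))

theorem heckeCoh_comm (V : Coef L) (i : ℕ) (s t : Idx L) :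
    heckeCoh V i s * heckeCoh V i t = heckeCoh V i t * heckeCoh V i s := by
  have h := congrArg (fun a => ((groupCohomology.functor V.O (DG A) i).map a).hom)
    (heckeHom_comm V s t)
  simp only [CategoryTheory.Functor.map_comp, ModuleCat.hom_comp] at h
  exact h.symm

/-- The Hecke operators commute, so there is a unique homomorphism of algebras from the Hecke
algebra to the algebra of endomorphisms which maps the generators to the Hecke operators. -/
theorem exists_unique_action (V : Coef L) (i : ℕ) : ∃! Φ : ActHom V i, IsAction Φ := by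
  let B : Subalgebra V.O (EndH V i) := Algebra.adjoin V.O (Set.range (heckeCoh V i))
  have hc : IsMulCommutative B := Algebra.isMulCommutative_adjoin V.O (by
    rintro _ ⟨s, rfl⟩ _ ⟨t, rfl⟩
    exact heckeCoh_comm V i s t)
  let g : Idx L → B := fun t => ⟨heckeCoh V i t, Algebra.subset_adjoin ⟨t, rfl⟩⟩
  refine ⟨B.val.comp (MvPolynomial.aeval g : HeckeAlg V →ₐ[V.O] B), fun t =>
    congrArg Subtype.val (MvPolynomial.aeval_X g t), fun Φ h => ?_⟩
  exact MvPolynomial.algHom_ext fun t => (h t).trans
    (congrArg Subtype.val (MvPolynomial.aeval_X g t)).symm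

/-- The localisation of `Hⁱ(Y(K_f), W)` at the prime ideal `m` of the Hecke algebra is not
zero. -/
def InSupport (V : Coef L) (i : ℕ) (m : Ideal (HeckeAlg V)) : Prop :=
  ∃ Φ : ActHom V i, IsAction Φ ∧ ∃ h : H V i, ∀ t : HeckeAlg V, t ∉ m → (Φ.app t).app h ≠ 0

/-- The residue ring of the ideal `m` of the Hecke algebra. -/
def Res {V : Coef L} (m : Ideal (HeckeAlg V)) : Type := HeckeAlg V ⧸ m

instance {V : Coef L} (m : Ideal (HeckeAlg V)) : CommRing (Res m) :=
  (inferInstance : CommRing (HeckeAlg V ⧸ m))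

/-- The residue class of an element. -/
def Res.mk {V : Coef L} (m : Ideal (HeckeAlg V)) (x : HeckeAlg V) : Res m := Ideal.Quotient.mk m x

/-- The image in `k` of the generator of the Hecke algebra attached to `t`, where `k` is a field
extension of the residue field of the maximal ideal `m` of the Hecke algebra. -/
def eig {V : Coef L} (m : Ideal (HeckeAlg V)) (k : Type) [Field k] [Algebra (Res m) k]
    (t : Idx L) : k := algebraMap (Res m) k (Res.mk m (HeckeAlg.T V t))

/-- The representation `ρ` of the absolute Galois group of `F` is attached to the maximal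
ideal `m` of the Hecke algebra: it is continuous, unramified outside `S`, and the characteristic
polynomial of (arithmetic, `e = 1`, or geometric, `e = -1`) Frobenius elements `σ` at `v` not
above `S` is given by the Hecke eigenvalues through the Satake isomorphism:
`∑ (-1)^j (N v)^(j(j-1)/2) T_(v,j) X^(n-j)`, up to a twist by a continuous character `ω`. -/
def Attached {V : Coef L} (m : Ideal (HeckeAlg V)) (k : Type) [Field k] [Algebra (Res m) k]
    (ρ : GRep A.F A.n k) : Prop :=
  IsOpen {σ : GalF A.F | ρ.Ker σ} ∧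
  ∃ (e : ℤˣ) (ω : GChar A.F k), IsOpen {σ : GalF A.F | ω.val σ = 1} ∧
    ∀ (v : Pl A) (hv : ¬ Ab L.S v) (Q : Ideal (Zbar A.F)), Over v Q →
      (∀ σ : GalF A.F, IsInertia Q σ → ρ.Ker σ) ∧
      (∀ σ : GalF A.F, IsFrob v Q σ →
        (ρ.mat (σ ^ (e : ℤ))).charpoly =
          pol (fun j => eig m k (Idx.mk v hv j)) (ω.val σ) ((PlF.norm v : ℕ) : k))

/-- The number of real places of `F`. -/
def r1 (A : AData) : ℤ := InfinitePlace.nrRealPlaces A.F

/-- The number of complex places of `F`. -/
def r2 (A : AData) : ℤ := InfinitePlace.nrComplexPlaces A.F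

/-- The number of real places of `F` at which `D` is split. -/
def sp (A : AData) : ℤ := Nat.card (SPl A)

/-- The degree `n` as an integer. -/
def deg (A : AData) : ℤ := A.n

/-- The real rank of `(D ⊗ ℝ)ˣ = GL_n(ℝ)^a × GL_(n/2)(ℍ)^b × GL_n(ℂ)^c` (where `a = sp A`,
`a + b = r1 A`, `c = r2 A`) modulo its centre: `a (n - 1) + b (n/2 - 1) + c (n - 1)`. -/
def rk (A : AData) : ℤ := (deg A - 1) * (sp A + r2 A) + (deg A / 2 - 1) * (r1 A - sp A)

/-- The real dimension of `(D ⊗ ℝ)ˣ` minus that of
`A_∞ K_∞ = ℝ_{>0} × SO(n)^a × Sp(n/2)^b × U(n)^c`: the dimension of `Y(K_f)`. -/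
def dY (A : AData) : ℤ :=
  deg A ^ 2 * (r1 A + 2 * r2 A) -
    (1 + sp A * (deg A * (deg A - 1) / 2) + (r1 A - sp A) * (deg A * (deg A + 1) / 2) +
      r2 A * deg A ^ 2)

/-- The difference of the ranks of `(D ⊗ ℝ)ˣ` and of `A_∞ K_∞`. -/
def ell0 (A : AData) : ℤ :=
  deg A * (r1 A + 2 * r2 A) -
    (1 + sp A * (deg A / 2) + (r1 A - sp A) * (deg A / 2) + r2 A * deg A)

/-- `q₀ = (d_Y - ℓ₀) / 2`. -/
def q0 (A : AData) : ℤ := (dY A - ell0 A) / 2

end Pool.Agent.CGNF
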