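import Pool.Agent.CGNF.Transfer

/-!
# The vanishing theorem for central division algebras over number fields
-/

noncomputable section

namespace Pool.Agent.CGNF

open CategoryTheory NumberField

theorem main (A : AData) (hD : A.IsDivision) (hC : A.IsCentral) (hr : 1 ≤ rk A)
    (L : Level A) (hTF : L.TorsionFree) (V : Coef L) (hV : V.IsCont) (m : Ideal (HeckeAlg V)) [hmax : m.IsMaximal]
    (k : Type) [Field k] [Algebra (Res m) k] (ρ : GRep A.F A.n k) (hatt : Attached m k ρ)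
    (hne : NonEisenstein ρ) (i : ℕ) (hm : InSupport V i m) :
    (1 ≤ i ∧ (i : ℤ) ≤ dY A - 1) ∧
    (2 ≤ rk A → 2 ≤ i ∧ (i : ℤ) ≤ dY A - 2) ∧
    (q0 A ≤ 2 → q0 A ≤ rk A → q0 A ≤ i ∧ (i : ℤ) ≤ q0 A + ell0 A) := by
  have hp : Fact (L.p : ℕ).Prime := ⟨L.p.2⟩
  have hchar : CharP (IsLocalRing.ResidueField V.O) (L.p : ℕ) := by
    have h1 : ((L.p : ℕ) : IsLocalRing.ResidueField V.O) = 0 := by
      rw [← map_natCast (IsLocalRing.residue V.O)]
      exact Ideal.Quotient.eq_zero_iff_mem.2 V.char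
    exact (CharP.charP_iff_prime_eq_zero L.p.2).2 h1
  have hSf : (CG2.ab A.F L.S).Finite := by
    have : CG2.ab A.F L.S = ⋃ ℓ ∈ L.S, {v : CG2.Pl A.F | CG2.Above (ℓ : ℕ) v} := by
      ext v; simp [CG2.ab]
    rw [this]
    exact Set.Finite.biUnion L.S.finite_toSet fun ℓ _ => CG2.LevelOC_fin ℓ
  have hdiv := isDivision_old A hD
  have hcen := isCentral_old A hC
  refine main_two A (CGN.sp_odd A.old hdiv hcen) hr i fun hr' => ?_
  exact @CGN.main_all A.F _ _ A.old hdiv hcen hr' (L.p : ℕ) hp (CG2.ab A.F L.S) hSf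
    (fun v hv => ⟨L.p, L.mem, hv⟩) L.old.φ L.old.Kf L.old.oc (torsionFree_old L hTF) L.old.hyp
    V.O _ _ _ hchar V.W _ _ _ (L.old.rep V.σ) (L.old.unram V.σ)
    (L.old.cont V.σ (cont_old V hV)) m hmax k _ (algOld m k) ρ (attached_old m k ρ hatt)
    (nonEisenstein_old ρ hne) i (inSupport_old V i m hm)

end Pool.Agent.CGNF
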