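import Pool.Agent.CGNF.Hecke
import Pool.Agent.CGN.Stmt

/-!
# Comparison of the two versions of the definitions
-/

noncomputable section

namespace Pool.Agent.CGNF

open CategoryTheory NumberField

variable {A : AData} {L : Level A}

/-- A common form of `InSupport`. -/
def GenSupp {G O : Type} [Group G] [CommRing O] (A : Rep O G) {I : Type} (f : I → (A ⟶ A)) (i : ℕ)
    (m : Ideal (MvPolynomial I O)) : Prop :=
  ∃ (h : groupCohomology A i) (Φ : MvPolynomial I O →ₐ[O] Module.End O (groupCohomology A i)),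
    (∀ t, Φ (MvPolynomial.X t) = ((groupCohomology.functor O G i).map (f t)).hom) ∧
    ∀ t, t ∉ m → Φ t h ≠ 0

theorem genSupp_of (V : Coef L) (i : ℕ) (m : Ideal (HeckeAlg V)) (h : InSupport V i m) :
    GenSupp (coeff V) (heckeHom V) i m := by
  obtain ⟨Φ, h1, x, hx⟩ := h
  exact ⟨x, Φ, h1, hx⟩

theorem of_genSupp {F : Type} [Field F] [NumberField F] {n : ℕ} {𝒟 : CGQ.Sys F}
    {O : Type} [CommRing O] {W : Type} [AddCommGroup W] [Module O W]
    (K : Subgroup 𝒟.A) {T : Set (CG2.Pl F)} {Φ : CGN.Chart n 𝒟 T}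
    (τ : Representation O K W) (hU : CGN.UnramOff K τ Φ) (i : ℕ)
    (m : Ideal (CGN.HeckeAlg n T O)) (h : GenSupp (CGQ.coeff K τ) (CGN.heckeHom K τ hU) i m) :
    CGN.InSupport K τ hU i m := by
  obtain ⟨x, Φ, h1, h2⟩ := h
  have h3 : Φ = CGN.hact K τ hU i := by
    apply MvPolynomial.algHom_ext
    intro t
    rw [h1, CGN.hact_X]
    rfl
  rw [h3] at h2
  exact ⟨x, h2⟩

theorem genSupp_eq (V : Coef L) (i : ℕ) (m : Ideal (HeckeAlg V)) :
    GenSupp (coeff V) (heckeHom V) i m =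
      GenSupp (CGQ.coeff (O := V.O) (W := V.W) L.old.Kf (L.old.rep V.σ))
        (CGN.heckeHom (O := V.O) (W := V.W) L.old.Kf (L.old.rep V.σ) (L.old.unram V.σ)) i m :=
  rfl

theorem inSupport_old (V : Coef L) (i : ℕ) (m : Ideal (HeckeAlg V)) (h : InSupport V i m) :
    CGN.InSupport (O := V.O) (W := V.W) L.old.Kf (L.old.rep V.σ) (L.old.unram V.σ) i m := by
  apply of_genSupp
  rw [← genSupp_eq]
  exact genSupp_of V i m h

theorem torsionFree_old (L : Level A) (h : L.TorsionFree) : CGQ.TorsionFree L.old.Kf := h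

theorem cont_old (V : Coef L) (h : V.IsCont) :
    CGN.IsContinuousRepA (O := V.O) (W := V.W) L.old V.σ := h

/-- The algebra structure for the old form of the Hecke algebra. -/
@[reducible] def algOld {V : Coef L} (m : Ideal (HeckeAlg V)) (k : Type) [Field k]
    [inst : Algebra (Res m) k] :
    Algebra (CGN.HeckeAlg A.n (CG2.ab A.F L.S) V.O ⧸
      (m : Ideal (CGN.HeckeAlg A.n (CG2.ab A.F L.S) V.O))) k := inst

theorem nonEisenstein_old {k : Type} [Field k] (ρ : GRep A.F A.n k) (h : NonEisenstein ρ) :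
    CGN.NonEis (F := A.F) (n := A.n) (k := k) ρ := h

theorem pol_old {n : ℕ} {k : Type} [Field k] (lam : Option (Fin n) → k) (w N : k) :
    pol (fun j => lam (some j)) w N = CGN.heckePol lam w N := by
  rw [pol, CGN.heckePol, Finset.sum_range_succ', add_comm]
  congr 1
  · rw [← Fin.sum_univ_eq_sum_range (fun j => Polynomial.C ((-1) ^ (j + 1) * w ^ (j + 1) *
      N ^ ((j + 1) * (j + 1 - 1) / 2) * CGN.lk lam (j + 1)) * Polynomial.X ^ (n - (j + 1))) n]
    refine Finset.sum_congr rfl fun j _ => ?_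
    rw [CGN.lk_succ, neg_pow w, Nat.add_sub_cancel, mul_comm (j : ℕ) ((j : ℕ) + 1)]
  · simp [CGN.lk_zero]

theorem attached_old {V : Coef L} (m : Ideal (HeckeAlg V)) (k : Type) [Field k]
    [Algebra (Res m) k] (ρ : GRep A.F A.n k) (h : Attached m k ρ) :
    @CGN.AttachedN A.F _ _ A.n (CG2.ab A.F L.S) V.O _ m k _ (algOld m k) ρ := by
  obtain ⟨h1, e, ω, h2, h3⟩ := h
  refine ⟨?_, e, ω, ?_, ?_⟩
  · have h4 : ((MonoidHom.ker (G := CG2.GalF A.F) (M := GL (Fin A.n) k) ρ :
        Subgroup (CG2.GalF A.F)) : Set (CG2.GalF A.F)) = {σ : GalF A.F | ρ.Ker σ} := rfl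
    rw [h4]
    exact h1
  · have h4 : ((MonoidHom.ker (G := CG2.GalF A.F) (M := kˣ) ω : Subgroup (CG2.GalF A.F)) :
        Set (CG2.GalF A.F)) = {σ : GalF A.F | ω.val σ = 1} := by
      ext σ
      exact (Units.val_eq_one (a := (show GalF A.F →* kˣ from ω) σ)).symm
    rw [h4]
    exact h2
  · intro v hv Q hQ
    refine ⟨(h3 v hv Q hQ).1, fun σ hσ => ?_⟩
    rw [← pol_old]
    exact (h3 v hv Q hQ).2 σ hσ

theorem isDivision_old (A : AData) (h : A.IsDivision) : CGN.IsDiv A.old := by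
  intro x hx
  obtain ⟨y, hy⟩ := h x hx
  change CGN.DF A.old at y
  replace hy : x * y = 1 := hy
  have hy0 : y ≠ 0 := by
    rintro rfl
    rw [mul_zero] at hy
    apply hx
    rw [← mul_one x, ← hy, mul_zero]
  obtain ⟨z, hz⟩ := h y hy0
  change CGN.DF A.old at z
  replace hz : y * z = 1 := hz
  have h1 : x = z := by
    rw [← mul_one x, ← hz, ← mul_assoc, hy, one_mul]
  rw [h1] at hy ⊢
  exact ⟨⟨z, y, hy, hz⟩, rfl⟩

theorem isCentral_old (A : AData) (h : A.IsCentral) : CGN.IsCen A.old := h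

theorem sp_old (A : AData) : sp A = (A.old.sp : ℤ) := rfl

theorem sp_le (A : AData) : sp A ≤ r1 A := by
  classical
  have h1 : sp A = Nat.card {w : InfinitePlace A.F // ∃ h : w.IsReal,
    Nonempty (RIso (A := A) (InfinitePlace.embedding_of_isReal h))} := rfl
  have h2 : r1 A = (Nat.card {w : InfinitePlace A.F // w.IsReal} : ℕ) := by
    change ((InfinitePlace.nrRealPlaces A.F : ℕ) : ℤ) = _
    rw [InfinitePlace.nrRealPlaces, Nat.card_eq_fintype_card]
  rw [h1, h2]
  refine Nat.cast_le.2 (Nat.card_le_card_of_injective (α := {w : InfinitePlace A.F //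
    ∃ h : w.IsReal, Nonempty (RIso (A := A) (InfinitePlace.embedding_of_isReal h))})
    (fun w => ⟨w.1, w.2.choose⟩) ?_)
  exact fun w w' h =>
    Subtype.ext (congrArg (fun x : {w : InfinitePlace A.F // w.IsReal} => x.1) h)

/-- The numbers in the statement. -/
theorem numbers {n s r c : ℕ} (hs : s ≤ r) (hodd : ¬ 2 ∣ n → s = r)
    (h : 1 ≤ ((n : ℤ) - 1) * (s + c) + ((n : ℤ) / 2 - 1) * (r - s)) :
    (((n - 1) * (s + c) + (n / 2 - 1) * (r - s) : ℕ) : ℤ) =
      ((n : ℤ) - 1) * (s + c) + ((n : ℤ) / 2 - 1) * (r - s) ∧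
    ((s * (n * (n + 1) / 2) + (r - s) * (n * (n - 1) / 2) + c * n ^ 2 - 1 : ℕ) : ℤ) =
      (n : ℤ) ^ 2 * (r + 2 * c) -
        (1 + s * ((n : ℤ) * (n - 1) / 2) + (r - s) * ((n : ℤ) * (n + 1) / 2) + c * (n : ℤ) ^ 2) ∧
    ∃ q : ℤ, ((n : ℤ) ^ 2 * (r + 2 * c) -
        (1 + s * ((n : ℤ) * (n - 1) / 2) + (r - s) * ((n : ℤ) * (n + 1) / 2) + c * (n : ℤ) ^ 2)) -
      ((n : ℤ) * (r + 2 * c) - (1 + s * ((n : ℤ) / 2) + (r - s) * ((n : ℤ) / 2) + c * n)) =
        2 * q := by
  obtain ⟨b, rfl⟩ := Nat.exists_eq_add_of_le hs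
  have hn : 2 ≤ n := by
    by_contra hn
    have hn' : n = 0 ∨ n = 1 := by omega
    rcases hn' with rfl | rfl
    · simp only [Nat.cast_zero, zero_sub] at h
      push_cast at h
      have h1 : (0 : ℤ) ≤ s := by positivity
      have h2 : (0 : ℤ) ≤ b := by positivity
      have h3 : (0 : ℤ) ≤ c := by positivity
      nlinarith
    · simp only [Nat.cast_one, sub_self, zero_mul] at h
      push_cast at h
      have h2 : (0 : ℤ) ≤ b := by positivity
      norm_num at h
      omega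
  have hsub : s + b - s = b := by omega
  rw [hsub]
  rcases Nat.even_or_odd' n with ⟨k, rfl | rfl⟩
  · have hk : 1 ≤ k := by omega
    have e1 : ((2 * k : ℕ) : ℤ) / 2 = k := by push_cast; omega
    have e2 : 2 * k / 2 = k := by omega
    have e3 : 2 * k * (2 * k + 1) / 2 = k * (2 * k + 1) := by
      rw [mul_assoc]; exact Nat.mul_div_cancel_left _ (by norm_num)
    have e4 : 2 * k * (2 * k - 1) / 2 = k * (2 * k - 1) := by
      rw [mul_assoc]; exact Nat.mul_div_cancel_left _ (by norm_num)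
    have e5 : ((2 * k : ℕ) : ℤ) * (((2 * k : ℕ) : ℤ) + 1) / 2 = k * (2 * k + 1) := by
      push_cast
      rw [mul_assoc]
      exact Int.mul_ediv_cancel_left _ (by norm_num)
    have e6 : ((2 * k : ℕ) : ℤ) * (((2 * k : ℕ) : ℤ) - 1) / 2 = k * (2 * k - 1) := by
      push_cast
      rw [mul_assoc]
      exact Int.mul_ediv_cancel_left _ (by norm_num)
    rw [e1] at h ⊢
    rw [e2, e3, e4, e5, e6]
    obtain ⟨j, rfl⟩ := Nat.exists_eq_add_of_le hk
    have e7 : 2 * (1 + j) - 1 = 2 * j + 1 := by omega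
    have e8 : 1 + j - 1 = j := by omega
    rw [e7, e8]
    push_cast at h ⊢
    refine ⟨by ring, ?_, ?_⟩
    · have hpos : 1 ≤ s * ((1 + j) * (2 * (1 + j) + 1)) + b * ((1 + j) * (2 * j + 1)) +
          c * (2 * (1 + j)) ^ 2 := by
        have h0 : s ≠ 0 ∨ b ≠ 0 ∨ c ≠ 0 := by
          by_contra h0
          push Not at h0
          obtain ⟨rfl, rfl, rfl⟩ := h0
          norm_num at h
        have h1 : 0 < (1 + j) * (2 * (1 + j) + 1) := by positivity
        have h2 : 0 < (1 + j) * (2 * j + 1) := by positivity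
        have h3 : 0 < (2 * (1 + j)) ^ 2 := by positivity
        rcases h0 with h0 | h0 | h0
        · have := Nat.mul_pos (Nat.pos_of_ne_zero h0) h1
          omega
        · have := Nat.mul_pos (Nat.pos_of_ne_zero h0) h2
          omega
        · have := Nat.mul_pos (Nat.pos_of_ne_zero h0) h3
          omega
      rw [Nat.cast_sub hpos]
      push_cast
      ring
    · refine ⟨s * (1 + j) * (1 + j) + b * (1 + j) ^ 2 - b * (1 + j) + c * (1 + j) * (2 * j + 1) , ?_⟩
      ring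
  · have hsr : b = 0 := by
      have := hodd (by omega)
      omega
    subst hsr
    have e1 : ((2 * k + 1 : ℕ) : ℤ) / 2 = k := by push_cast; omega
    have e2 : (2 * k + 1) / 2 = k := by omega
    have e3 : (2 * k + 1) * (2 * k + 1 + 1) / 2 = (2 * k + 1) * (k + 1) := by
      have : (2 * k + 1) * (2 * k + 1 + 1) = 2 * ((2 * k + 1) * (k + 1)) := by ring
      rw [this]; exact Nat.mul_div_cancel_left _ (by norm_num)
    have e6 : ((2 * k + 1 : ℕ) : ℤ) * (((2 * k + 1 : ℕ) : ℤ) - 1) / 2 = (2 * k + 1) * k := by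
      have : ((2 * k + 1 : ℕ) : ℤ) * (((2 * k + 1 : ℕ) : ℤ) - 1) = 2 * ((2 * k + 1) * k) := by
        push_cast; ring
      rw [this]; exact Int.mul_ediv_cancel_left _ (by norm_num)
    rw [e1] at h ⊢
    rw [e2, e3, e6]
    push_cast at h ⊢
    simp only [add_zero, Nat.zero_mul, zero_mul, sub_self, add_sub_cancel_right, mul_zero,
      Nat.sub_self] at h ⊢
    refine ⟨?_, ?_, ?_⟩
    · trivial
    · have hpos : 1 ≤ s * ((2 * k + 1) * (k + 1)) + c * (2 * k + 1) ^ 2 := by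
        have h0 : s ≠ 0 ∨ c ≠ 0 := by
          by_contra h0
          push Not at h0
          obtain ⟨rfl, rfl⟩ := h0
          norm_num at h
        have h1 : 0 < (2 * k + 1) * (k + 1) := by positivity
        have h3 : 0 < (2 * k + 1) ^ 2 := by positivity
        rcases h0 with h0 | h0
        · have := Nat.mul_pos (Nat.pos_of_ne_zero h0) h1
          omega
        · have := Nat.mul_pos (Nat.pos_of_ne_zero h0) h3
          omega
      rw [Nat.cast_sub hpos]
      push_cast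
      ring
    · refine ⟨s * (k ^ 2 + k) + c * (2 * k + 1) * k , ?_⟩
      ring

theorem main_two (A : AData) (hodd : ¬ 2 ∣ A.n → A.old.sp = InfinitePlace.nrRealPlaces A.F)
    (h : 1 ≤ rk A) (i : ℕ) (hi : 1 ≤ A.old.rk → min 2 A.old.rk ≤ i ∧
      i + min 2 A.old.rk ≤ A.old.dim) :
    (1 ≤ i ∧ (i : ℤ) ≤ dY A - 1) ∧
    (2 ≤ rk A → 2 ≤ i ∧ (i : ℤ) ≤ dY A - 2) ∧
    (q0 A ≤ 2 → q0 A ≤ rk A → q0 A ≤ i ∧ (i : ℤ) ≤ q0 A + ell0 A) := by
  have h0 : A.old.sp ≤ InfinitePlace.nrRealPlaces A.F := by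
    have := sp_le A
    rw [sp_old] at this
    exact Int.ofNat_le.1 this
  obtain ⟨h1, h2, c, h3⟩ := numbers (n := A.n) (s := A.old.sp)
    (r := InfinitePlace.nrRealPlaces A.F) (c := InfinitePlace.nrComplexPlaces A.F) h0 hodd h
  have h4 : (A.old.rk : ℤ) = rk A := h1
  have h5 : (A.old.dim : ℤ) = dY A := h2
  have h6 : dY A - ell0 A = 2 * c := h3
  have h7 := hi (by omega)
  unfold q0
  omega

end Pool.Agent.CGNF
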